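import Pool.Agent.Lib.MP_b1c768_lc.PC.Final3
import Pool.Agent.Lib.MP_b1c768_lc.PC.Paths
import Pool.Agent.Lib.MP_b1c768_lc.PC.PRed
import Pool.Agent.Lib.MP_b1c768_lc.PC.Par

/-!
# MP_b1c768_lc: the graph of the permanent and computation trees with few alternations
-/

set_option autoImplicit false

namespace Pool.Agent.Results.MP_b1c768_lc.PermanentNesting

open Pool.Agent.Lib.MP_641cb6_lc.CD (Hard3 dd kind_real)
open Pool.Agent.Lib.MP_b1c768_lc.PC

/-- Let `S n` be the set of the pairs `(X, z)` with `X` a real `n × n` matrix and `z = per X`.
(1) `S n` is decided by an algebraic circuit over `ℝ` (real constants, `+`, `-`, `*`, sign gates) of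
depth at most `n ^ 2 + n + 4`.
(2) In the following trees real constants, products, quotients and tests `x ≥ 0` are free, and a
gate is any polynomial, of any degree, in values computed before that has at most `M` terms or is a
polynomial in at most `r` of them. The level of a value counts the alternations between gates and
products: inputs and constants have level `0`, a product or a quotient has the larger level of its
two arguments, a gate one more than the largest level of its arguments; for a gate of degree at most
`1`, however, an argument that is directly the value of another gate of degree at most `1` counts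
with its own level, not one more.
Let `d = (4096 (2 c + 3) (D + 1)) ^ (4 ^ D)`, `n ≥ 2 ^ (17 d ^ 2)`, `M = n ^ c` and `r ^ d ≤ M`. If
finitely many trees (of any, even infinite depth) decide `S n` jointly, then one of them branches on
some input on a value which depends on a gate whose level is larger than `D` or on a gate which
depends on more than `M` gates.

The trace of the product of `d` matrices is a projection of the permanent; for the trace see
`Pool.Agent.Results.MP_641cb6_lc.BoundedNesting`. The rank method is that of Limaye, Srinivasan and
Tavenas (2021). -/
theorem result :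
    (∀ n : ℕ, ∃ C : MPB1C.Circ (n * n + 1), C.depth ≤ n ^ 2 + n + 4 ∧
      ∀ q : (Fin (n * n) → ℝ) × ℝ, q ∈ PerSet ℝ n ↔
        0 < C.eval (Fin.snoc (α := fun _ => ℝ) q.1 q.2)) ∧
    (∀ D c n r : ℕ, 2 ^ (17 * dd D (2 * c + 2) ^ 2) ≤ n → r ^ dd D (2 * c + 2) ≤ n ^ c →
      Hard3 (fun x : ℝ => 0 ≤ x) (PerSet ℝ n) D (n ^ c) r) :=
  ⟨parStatement, fun D c n r hn hr => hard3_per (pRed pathsStatement) kind_real D c n r hn hr⟩

end Pool.Agent.Results.MP_b1c768_lc.PermanentNesting
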