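import Pool.Agent.Lib.MP_b1c768_lc.Dep
import Pool.Agent.Lib.MP_b1c768_lc.Sgn
import Pool.Agent.Lib.MP_b1c768_lc.Cir
import Pool.Agent.Lib.MP_b1c768_lc.Tgt
import Pool.Agent.Lib.MP_b1c768_lc.Crd
import Pool.Agent.Lib.MP_b1c768_lc.Iso
import Pool.Agent.Lib.MP_b1c768_lc.Crt
import Pool.Agent.Lib.MP_b1c768_lc.Alg
import Pool.Agent.Lib.MP_b1c768_lc.Rts
import Pool.Agent.Lib.MP_b1c768_lc.Cov
import Pool.Agent.Lib.MP_b1c768_lc.Ind
import Pool.Agent.Lib.MP_b1c768_lc.Hit
import Pool.Agent.Lib.MP_b1c768_lc.Ray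
import Pool.Agent.Lib.MP_b1c768_lc.Loc
import Pool.Agent.Lib.MP_b1c768_lc.Tre
import Pool.Agent.Lib.MP_b1c768_lc.Num
import Pool.Agent.Lib.MP_b1c768_lc.Main

/-!
# MP_b1c768_lc: semilinear problems of PAR over the reals have shallow computation trees
-/

set_option autoImplicit false

namespace Pool.Agent.Results.MP_b1c768_lc.SemilinearProblems

open MPB1C

/-- Let `S` be decided by (non-uniform) algebraic circuits with sign gates of polynomial depth, and
let all its slices be semilinear.  Then `S` is decided by computation trees of polynomial depth. -/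
theorem result (S : (n : ℕ) → Set (Fin n → ℝ))
    (hpar : ∃ p : Polynomial ℕ, ∀ n, ∃ C : Circ n, C.depth ≤ p.eval n ∧
      ∀ x, x ∈ S n ↔ 0 < C.eval x)
    (hlin : ∀ n, ∃ A : Finset (Aff n), DetsA A (S n)) :
    ∃ q : Polynomial ℕ, ∀ n, ∃ T : MPB1C.Tree n, T.depth ≤ q.eval n ∧
      ∀ x, T.run x [] = true ↔ x ∈ S n :=
  main_proof (cir_proof (sgn_proof dep_proof))
    (ind_proof (cov_proof tgt_proof crd_proof iso_proof crt_proof (alg_proof dep_proof) rts_proof))
    (loc_proof hit_proof ray_proof (sgn_proof dep_proof)) tre_proof num_proof S hpar hlin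

end Pool.Agent.Results.MP_b1c768_lc.SemilinearProblems
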